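import Mathlib

set_option autoImplicit false

open Set Filter Topology

namespace Pool.Agent.Results.MP_c42e77_an.GoldenLevel

/-- The subsum `f(ε) = ∑ ε_n x_n`. -/
noncomputable def subsum (x : ℕ → ℝ) (ε : ℕ → Bool) : ℝ := ∑' n, if ε n = true then x n else 0

/-- The cardinality function `F_x(t) = card f⁻¹(t)`. -/
noncomputable def cardFun (x : ℕ → ℝ) (t : ℝ) : Cardinal :=
  Cardinal.mk {ε : ℕ → Bool // subsum x ε = t}

/-- The level set `L_κ(x) = {t : F_x(t) = κ}`. -/
def levelSet (x : ℕ → ℝ) (κ : Cardinal) : Set ℝ := {t | cardFun x t = κ}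

/-- The series `φ^{-1} + φ^{-2} + φ^{-3} + ...`, `φ = (1 + √5) / 2` the golden ratio. -/
noncomputable def gold (n : ℕ) : ℝ := (Real.goldenRatio ^ (n + 1))⁻¹

/-- the inverse golden ratio -/
noncomputable def g : ℝ := Real.goldenRatio⁻¹

lemma g_pos : 0 < g := inv_pos.2 Real.goldenRatio_pos

lemma g_lt_one : g < 1 := inv_lt_one_of_one_lt₀ Real.one_lt_goldenRatio

lemma g_sq : g ^ 2 = 1 - g := by
  have h : Real.goldenRatio ^ 2 = Real.goldenRatio + 1 := Real.goldenRatio_sq
  have h0 : Real.goldenRatio ≠ 0 := Real.goldenRatio_ne_zero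
  unfold g
  generalize Real.goldenRatio = p at h h0
  field_simp
  linarith

lemma gold_eq (n : ℕ) : gold n = g ^ (n + 1) := by
  unfold gold g
  rw [inv_pow]

lemma gold_pos (n : ℕ) : 0 < gold n := by rw [gold_eq]; exact pow_pos g_pos _

lemma gold_zero : gold 0 = g := by rw [gold_eq]; ring

lemma gold_succ (n : ℕ) : gold (n + 1) = g * gold n := by rw [gold_eq, gold_eq]; ring

lemma summable_gold : Summable gold := by
  have h : gold = fun n => g * g ^ n := by
    funext n; rw [gold_eq]; ring
  rw [h]
  exact (summable_geometric_of_lt_one g_pos.le g_lt_one).mul_left g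

lemma term_le (ε : ℕ → Bool) (n : ℕ) : ‖(if ε n = true then gold n else 0 : ℝ)‖ ≤ gold n := by
  split_ifs
  · rw [Real.norm_of_nonneg (gold_pos n).le]
  · rw [norm_zero]; exact (gold_pos n).le

lemma summable_term (ε : ℕ → Bool) : Summable (fun n => if ε n = true then gold n else (0 : ℝ)) :=
  Summable.of_norm_bounded summable_gold (term_le ε)

/-- the subsums of the golden series -/
noncomputable def S (ε : ℕ → Bool) : ℝ := subsum gold ε

lemma S_shift (ε : ℕ → Bool) : S ε = (if ε 0 = true then g else 0) + g * S (fun n => ε (n + 1)) := by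
  unfold S subsum
  rw [(summable_term ε).tsum_eq_zero_add, gold_zero]
  congr 1
  rw [← tsum_mul_left]
  refine tsum_congr fun n => ?_
  rw [gold_succ]
  split_ifs <;> ring

lemma S_nonneg (ε : ℕ → Bool) : 0 ≤ S ε := by
  unfold S subsum
  refine tsum_nonneg fun n => ?_
  split_ifs
  · exact (gold_pos n).le
  · exact le_rfl

lemma S_eq_zero {ε : ℕ → Bool} (h : S ε = 0) : ∀ n, ε n = false := by
  intro n
  by_contra hn
  have hn' : ε n = true := by simpa using hn
  have h1 : (if ε n = true then gold n else (0 : ℝ)) ≤ S ε := by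
    unfold S subsum
    refine (summable_term ε).le_tsum n fun j _ => ?_
    split_ifs
    · exact (gold_pos j).le
    · exact le_rfl
  rw [if_pos hn', h] at h1
  exact absurd h1 (not_le.2 (gold_pos n))

lemma S_false : S (fun _ => false) = 0 := by
  unfold S subsum; simp

lemma S_true : S (fun _ => true) = g⁻¹ := by
  have h := S_shift (fun _ => true)
  simp only [if_true] at h
  have h2 := g_sq
  have h3 := g_pos
  have h4 : (1 - g) * S (fun _ => true) = g := by linarith
  rw [← h2] at h4
  field_simp
  nlinarith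

lemma S_compl (ε : ℕ → Bool) : S ε + S (fun n => !(ε n)) = g⁻¹ := by
  rw [← S_true]
  unfold S subsum
  rw [← (summable_term ε).tsum_add (summable_term _)]
  refine tsum_congr fun n => ?_
  cases ε n <;> simp

lemma S_eq_max {ε : ℕ → Bool} (h : S ε = g⁻¹) : ∀ n, ε n = true := by
  have h1 := S_compl ε
  have h2 : S (fun n => !(ε n)) = 0 := by linarith
  intro n
  have := S_eq_zero h2 n
  simpa using this

lemma S_tail (N : ℕ) : ∀ ε ε' : ℕ → Bool, (∀ n < N, ε' n = ε n) →
    S (fun n => ε' (n + N)) = S (fun n => ε (n + N)) → S ε' = S ε := by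
  induction N with
  | zero => intro ε ε' _ h; simpa using h
  | succ N ih =>
    intro ε ε' h1 h2
    rw [S_shift ε, S_shift ε', h1 0 (Nat.succ_pos _)]
    congr 2
    refine ih (fun n => ε (n + 1)) (fun n => ε' (n + 1)) (fun n hn => h1 (n + 1) (by omega)) ?_
    have e1 : (fun n => ε' (n + N + 1)) = fun n => ε' (n + (N + 1)) := by funext n; rfl
    have e2 : (fun n => ε (n + N + 1)) = fun n => ε (n + (N + 1)) := by funext n; rfl
    rw [e1, e2]
    exact h2

/-- flip the digits `m`, `m+1`, `m+2` -/
def flip3 (m : ℕ) (ε : ℕ → Bool) (n : ℕ) : Bool :=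
  if m ≤ n ∧ n ≤ m + 2 then !(ε n) else ε n

lemma S_flip3 (m : ℕ) (ε : ℕ → Bool) (h1 : ε (m + 1) = !(ε m)) (h2 : ε (m + 2) = ε (m + 1)) :
    S (flip3 m ε) = S ε := by
  refine S_tail m ε _ (fun n hn => ?_) ?_
  · unfold flip3; rw [if_neg (by omega)]
  · have hs : ∀ δ : ℕ → Bool, S (fun n => δ (n + m)) = (if δ m = true then g else 0) +
        g * ((if δ (m + 1) = true then g else 0) + g * ((if δ (m + 2) = true then g else 0) +
          g * S (fun n => δ (n + 3 + m)))) := by
      intro δ
      rw [S_shift, S_shift (fun n => δ (n + 1 + m)), S_shift (fun n => δ (n + 1 + 1 + m))]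
      have e0 : 0 + m = m := by omega
      have e1 : 0 + 1 + m = m + 1 := by omega
      have e2 : 0 + 1 + 1 + m = m + 2 := by omega
      simp only [e0, e1, e2]
    rw [hs, hs]
    have e3 : (fun n => flip3 m ε (n + 3 + m)) = fun n => ε (n + 3 + m) := by
      funext n; unfold flip3; rw [if_neg (by omega)]
    rw [e3]
    have a0 : flip3 m ε m = !(ε m) := by unfold flip3; rw [if_pos (by omega)]
    have a1 : flip3 m ε (m + 1) = ε m := by
      unfold flip3; rw [if_pos (by omega), h1]; simp
    have a2 : flip3 m ε (m + 2) = ε m := by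
      unfold flip3; rw [if_pos (by omega), h2, h1]; simp
    rw [a0, a1, a2, h2, h1]
    have h3 := g_sq
    have h4 : g ^ 3 = g - g ^ 2 := by
      calc g ^ 3 = g * g ^ 2 := by ring
        _ = g * (1 - g) := by rw [h3]
        _ = g - g ^ 2 := by ring
    cases ε m
    · simp
      linear_combination (-1 : ℝ) * h4
    · simp
      linear_combination h4

/-- a sequence which is not eventually constant -/
def EC (ε : ℕ → Bool) : Prop := ∃ (M : ℕ) (b : Bool), ∀ n, M ≤ n → ε n = b

lemma S_alt : S (fun n => decide (n % 2 = 0)) = 1 := by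
  have h := S_shift (fun n => decide (n % 2 = 0))
  have h' := S_shift (fun n => decide ((n + 1) % 2 = 0))
  have e : (fun n => decide ((n + 1 + 1) % 2 = 0)) = fun n : ℕ => decide (n % 2 = 0) := by
    funext n
    have : (n + 1 + 1) % 2 = n % 2 := by omega
    rw [this]
  rw [e] at h'
  rw [h'] at h
  simp at h
  have h2 := g_sq
  have h3 := g_pos
  have h4 : S (fun n => decide (n % 2 = 0)) * (1 - g ^ 2) = g := by linear_combination h
  have h5 : 1 - g ^ 2 = g := by linarith
  rw [h5] at h4
  have h6 : (S (fun n => decide (n % 2 = 0)) - 1) * g = 0 := by linear_combination h4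
  rcases mul_eq_zero.1 h6 with h7 | h7
  · linarith
  · exact absurd h7 h3.ne'

lemma S_two : S (fun n => decide (n < 2)) = 1 := by
  rw [S_shift, S_shift (fun n => decide (n + 1 < 2))]
  have e : (fun n => decide (n + 1 + 1 < 2)) = fun _ : ℕ => false := by
    funext n
    simp
  rw [e, S_false]
  simp
  linarith [g_sq]

/-- if an expansion is isolated among the expansions of its value, then it is eventually constant -/
lemma ec_of_isolated (N : ℕ) (ε : ℕ → Bool)
    (h : ∀ ε', S ε' = S ε → (∀ n < N, ε' n = ε n) → ε' = ε) : EC ε := by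
  -- no block `a, !a, !a` from `N` on
  have hb : ∀ m, N ≤ m → ε (m + 1) = !(ε m) → ε (m + 2) = ε (m + 1) → False := by
    intro m hm h1 h2
    have h3 := h (flip3 m ε) (S_flip3 m ε h1 h2) (fun n hn => by
      unfold flip3; rw [if_neg (by omega)])
    have h4 := congrFun h3 m
    unfold flip3 at h4
    rw [if_pos (by omega)] at h4
    cases hm' : ε m <;> rw [hm'] at h4 <;> simp at h4
  by_contra hne
  -- a change after `N`
  obtain ⟨m, hm, hch⟩ : ∃ m, N ≤ m ∧ ε (m + 1) = !(ε m) := by
    by_contra hcon
    push Not at hcon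
    refine hne ⟨N, ε N, fun n hn => ?_⟩
    induction n, hn using Nat.le_induction with
    | base => rfl
    | succ n hn ih =>
      have := hcon n hn
      rw [← ih]
      cases h1 : ε (n + 1) <;> cases h2 : ε n <;> simp_all
  -- alternation from `m` on
  have halt : ∀ k, ε (m + k + 1) = !(ε (m + k)) := by
    intro k
    induction k with
    | zero => exact hch
    | succ k ih =>
      have h1 := hb (m + k) (by omega) ih
      have e : m + k + 2 = m + (k + 1) + 1 := by ring
      have e' : m + k + 1 = m + (k + 1) := by ring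
      rw [e, e'] at h1
      cases h2 : ε (m + (k + 1) + 1) <;> cases h3 : ε (m + (k + 1)) <;> simp_all
  obtain ⟨m', hm', htrue, halt'⟩ : ∃ m', N ≤ m' ∧ ε m' = true ∧
      ∀ k, ε (m' + k + 1) = !(ε (m' + k)) := by
    cases h1 : ε m
    · refine ⟨m + 1, by omega, by rw [hch, h1]; rfl, fun k => ?_⟩
      have := halt (k + 1)
      have e : m + (k + 1) + 1 = m + 1 + k + 1 := by ring
      have e' : m + (k + 1) = m + 1 + k := by ring
      rw [e, e'] at this
      exact this
    · exact ⟨m, hm, h1, halt⟩
  have htail : ∀ n, ε (n + m') = decide (n % 2 = 0) := by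
    intro n
    induction n with
    | zero => simpa using htrue
    | succ n ih =>
      have := halt' n
      have e : m' + n + 1 = n + 1 + m' := by ring
      have e' : m' + n = n + m' := by ring
      rw [e, e', ih] at this
      rw [this]
      rcases Nat.mod_two_eq_zero_or_one n with h0 | h0
      · have : (n + 1) % 2 = 1 := by omega
        simp [h0, this]
      · have : (n + 1) % 2 = 0 := by omega
        simp [h0, this]
  -- another expansion
  have h5 := h (fun n => if n < m' then ε n else decide (n < m' + 2)) ?_ ?_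
  · have h6 := congrFun h5 (m' + 1)
    have h7 := htail 1
    rw [add_comm 1 m'] at h7
    simp at h6 h7
    rw [h7] at h6
    exact absurd h6 (by decide)
  · refine S_tail m' ε _ (fun n hn => by simp [hn]) ?_
    have e1 : (fun n => ε (n + m')) = fun n => decide (n % 2 = 0) := funext htail
    have e2 : (fun n => if n + m' < m' then ε (n + m') else decide (n + m' < m' + 2)) =
        fun n => decide (n < 2) := by
      funext n
      rw [if_neg (by omega)]
      congr 1
      apply propext
      omega
    rw [e1]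
    show S (fun n => if n + m' < m' then ε (n + m') else decide (n + m' < m' + 2)) = _
    rw [e2, S_alt, S_two]
  · intro n hn
    have : n < m' := by omega
    simp [this]

lemma countable_EC : {ε : ℕ → Bool | EC ε}.Countable := by
  let h : (Σ M : ℕ, (Fin M → Bool) × Bool) → (ℕ → Bool) := fun p n =>
    if hn : n < p.1 then p.2.1 ⟨n, hn⟩ else p.2.2
  refine (Set.countable_range h).mono ?_
  rintro ε ⟨M, b, hM⟩
  refine ⟨⟨M, fun i => ε i, b⟩, ?_⟩
  funext n
  simp only [h]
  split_ifs with hn
  · rfl
  · exact (hM n (by omega)).symm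

lemma continuous_S : Continuous S := by
  unfold S subsum
  refine continuous_tsum (u := gold) (fun n => ?_) summable_gold (fun n ε => term_le ε n)
  exact (continuous_of_discreteTopology (f := fun b : Bool => if b = true then gold n else 0)).comp
    (continuous_apply n)

lemma unc : ¬ Countable (ℕ → Bool) := by
  intro h
  obtain ⟨f, hf⟩ := exists_surjective_nat (ℕ → Bool)
  obtain ⟨n, hn⟩ := hf (fun k => !(f k k))
  have := congrFun hn n
  simp at this

/-- a nonempty countable set of expansions of `t` contains an isolated one -/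
lemma exists_isolated (t : ℝ) (hne : {ε | S ε = t}.Nonempty) (hc : {ε | S ε = t}.Countable) :
    ∃ ε, S ε = t ∧ ∃ N, ∀ ε', S ε' = t → (∀ n < N, ε' n = ε n) → ε' = ε := by
  by_contra hcon
  push Not at hcon
  let _ := TopologicalSpace.upgradeIsCompletelyMetrizable (ℕ → Bool)
  have hperf : Perfect {ε | S ε = t} := by
    refine ⟨isClosed_singleton.preimage continuous_S, ?_⟩
    intro ε hε
    rw [accPt_iff_nhds]
    intro U hU
    rw [nhds_pi, Filter.mem_pi] at hU
    obtain ⟨I, hI, T, hT, hsub⟩ := hU
    obtain ⟨N, hN⟩ := hI.bddAbove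
    obtain ⟨ε', h1, h2, h3⟩ := hcon ε hε (N + 1)
    refine ⟨ε', ⟨hsub fun i hi => ?_, h1⟩, h3⟩
    rw [h2 i (Nat.lt_succ_of_le (hN hi))]
    exact mem_of_mem_nhds (hT i)
  obtain ⟨f, hf1, _, hf2⟩ := hperf.exists_nat_bool_injection hne
  have h1 : (Set.range f).Countable := hc.mono hf1
  have h2 : Countable (ℕ → Bool) := by
    have := h1.to_subtype
    exact (Equiv.ofInjective f hf2).countable_iff.2 this
  exact unc h2

/-- the level set for `ω` is countable -/
lemma countable_level : (levelSet gold Cardinal.aleph0).Countable := by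
  refine (countable_EC.image S).mono ?_
  intro t ht
  have h1 : Cardinal.mk {ε : ℕ → Bool // S ε = t} = Cardinal.aleph0 := ht
  have h2 : Countable {ε : ℕ → Bool // S ε = t} := Cardinal.mk_le_aleph0_iff.1 h1.le
  have h3 : Nonempty {ε : ℕ → Bool // S ε = t} := by
    rw [← Cardinal.mk_ne_zero_iff, h1]
    exact Cardinal.aleph0_ne_zero
  obtain ⟨⟨ε0, hε0⟩⟩ := h3
  obtain ⟨ε, h4, N, h5⟩ := exists_isolated t ⟨ε0, hε0⟩ (Set.countable_coe_iff.1 h2)
  refine ⟨ε, ec_of_isolated N ε (fun ε' h6 h7 => h5 ε' (h6.trans h4) h7), h4⟩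

lemma S_one_cases {ε : ℕ → Bool} (h : S ε = 1) :
    EC ε ∨ (ε 0 = true ∧ ε 1 = false ∧ S (fun n => ε (n + 2)) = 1) := by
  have h2 := g_sq
  have h3 := g_pos
  rw [S_shift] at h
  cases h0 : ε 0
  · left
    rw [h0] at h
    simp at h
    have h4 : S (fun n => ε (n + 1)) = g⁻¹ := by
      field_simp
      linarith
    have h5 := S_eq_max h4
    refine ⟨1, true, fun n hn => ?_⟩
    obtain ⟨k, rfl⟩ : ∃ k, n = k + 1 := ⟨n - 1, by omega⟩
    exact h5 k
  · rw [h0] at h
    simp only [if_true] at h
    have h4 : S (fun n => ε (n + 1)) = g := by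
      have : g * S (fun n => ε (n + 1)) = g * g := by linarith
      exact mul_left_cancel₀ h3.ne' this
    rw [S_shift] at h4
    cases h1 : ε 1
    · right
      refine ⟨rfl, rfl, ?_⟩
      have e0 : 0 + 1 = 1 := rfl
      simp only [e0, h1] at h4
      simp at h4
      have : g * S (fun n => ε (n + 2)) = g * 1 := by linarith
      exact mul_left_cancel₀ h3.ne' this
    · left
      have e0 : 0 + 1 = 1 := rfl
      simp only [e0, h1, if_true] at h4
      have h5 : S (fun n => ε (n + 1 + 1)) = 0 := by
        have : g * S (fun n => ε (n + 1 + 1)) = 0 := by linarith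
        rcases mul_eq_zero.1 this with h6 | h6
        · exact absurd h6 h3.ne'
        · exact h6
      have h6 := S_eq_zero h5
      refine ⟨2, false, fun n hn => ?_⟩
      obtain ⟨k, rfl⟩ : ∃ k, n = k + 2 := ⟨n - 2, by omega⟩
      exact h6 k

lemma countable_one : {ε : ℕ → Bool | S ε = 1}.Countable := by
  refine (countable_EC.union (Set.countable_singleton (fun n => decide (n % 2 = 0)))).mono ?_
  intro ε hε
  by_cases hec : EC ε
  · exact Or.inl hec
  right
  have key : ∀ k, S (fun n => ε (n + 2 * k)) = 1 := by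
    intro k
    induction k with
    | zero => simpa using hε
    | succ k ih =>
      rcases S_one_cases ih with h | ⟨_, _, h⟩
      · exfalso
        obtain ⟨M, b, hM⟩ := h
        refine hec ⟨M + 2 * k, b, fun n hn => ?_⟩
        have := hM (n - 2 * k) (by omega)
        have e : n - 2 * k + 2 * k = n := by omega
        simp only [e] at this
        exact this
      · have e : (fun n => ε (n + 2 + 2 * k)) = fun n => ε (n + 2 * (k + 1)) := by
          funext n; congr 1; ring
        rw [← e]; exact h
  have key2 : ∀ k, ε (2 * k) = true ∧ ε (2 * k + 1) = false := by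
    intro k
    rcases S_one_cases (key k) with h | ⟨h1, h2, _⟩
    · exfalso
      obtain ⟨M, b, hM⟩ := h
      refine hec ⟨M + 2 * k, b, fun n hn => ?_⟩
      have := hM (n - 2 * k) (by omega)
      have e : n - 2 * k + 2 * k = n := by omega
      simp only [e] at this
      exact this
    · constructor
      · simpa using h1
      · rw [add_comm (2 * k) 1]; exact h2
  show ε = fun n => decide (n % 2 = 0)
  funext n
  rcases Nat.mod_two_eq_zero_or_one n with h0 | h0
  · have h1 := (key2 (n / 2)).1
    have e : 2 * (n / 2) = n := by omega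
    rw [e] at h1
    rw [h1]; simp [h0]
  · have h1 := (key2 (n / 2)).2
    have e : 2 * (n / 2) + 1 = n := by omega
    rw [e] at h1
    rw [h1]; simp [h0]

/-- the expansions `(10)^k 11 000...` of `1` -/
def bk (k n : ℕ) : Bool := if n < 2 * k then decide (n % 2 = 0) else decide (n < 2 * k + 2)

lemma S_bk (k : ℕ) : S (bk k) = 1 := by
  have h := S_tail (2 * k) (fun n => decide (n % 2 = 0)) (bk k) (fun n hn => by
    unfold bk; rw [if_pos hn]) ?_
  · rw [h, S_alt]
  · have e1 : (fun n => bk k (n + 2 * k)) = fun n => decide (n < 2) := by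
      funext n
      unfold bk
      rw [if_neg (by omega)]
      congr 1
      apply propext
      omega
    have e2 : (fun n => decide ((n + 2 * k) % 2 = 0)) = fun n : ℕ => decide (n % 2 = 0) := by
      funext n
      have : (n + 2 * k) % 2 = n % 2 := by omega
      rw [this]
    rw [e1, e2, S_two, S_alt]

lemma bk_injective : Function.Injective bk := by
  have key : ∀ k l, k < l → bk k ≠ bk l := by
    intro k l hkl h
    have h1 := congrFun h (2 * k + 1)
    unfold bk at h1
    rw [if_neg (by omega), if_pos (by omega)] at h1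
    have h2 : (2 * k + 1) % 2 = 1 := by omega
    simp [h2] at h1
  intro k l h
  rcases lt_trichotomy k l with h1 | h1 | h1
  · exact absurd h (key k l h1)
  · exact h1
  · exact absurd h.symm (key l k h1)

lemma one_mem : (1 : ℝ) ∈ levelSet gold Cardinal.aleph0 := by
  show Cardinal.mk {ε : ℕ → Bool // S ε = 1} = Cardinal.aleph0
  have h1 : Countable {ε : ℕ → Bool // S ε = 1} := countable_one.to_subtype
  have h2 : Infinite {ε : ℕ → Bool // S ε = 1} := by
    refine Infinite.of_injective (fun k : ℕ => (⟨bk k, S_bk k⟩ : {ε : ℕ → Bool // S ε = 1})) ?_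
    intro k l h
    exact bk_injective (congrArg Subtype.val h)
  exact Cardinal.mk_eq_aleph0 _

/-- **Q2, answered negatively.** For the series `φ⁻¹ + φ⁻² + φ⁻³ + ...`, `φ` the golden ratio, the
level set `L_ω` is nonempty (it contains `1`) and countable, hence contains no Cantor set. -/
theorem result : (∀ n, 0 < gold n) ∧ Summable gold ∧
    (1 : ℝ) ∈ levelSet gold Cardinal.aleph0 ∧ (levelSet gold Cardinal.aleph0).Countable ∧
    ¬ ∃ C ⊆ levelSet gold Cardinal.aleph0, Nonempty (C ≃ₜ cantorSet) := by
  refine ⟨gold_pos, summable_gold, one_mem, countable_level, ?_⟩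
  rintro ⟨C, hC, ⟨e⟩⟩
  have h1 : Countable C := (countable_level.mono hC).to_subtype
  have h2 : Countable (ℕ → Bool) :=
    ((e.trans cantorSetHomeomorphNatToBool).toEquiv.countable_iff).1 h1
  exact unc h2

end Pool.Agent.Results.MP_c42e77_an.GoldenLevel
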